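import Pool.Agent.Helper43.RS.Spec

namespace Pool.Agent.Helper43.RS

open MvPolynomial

theorem st_INV (hhil : ST_HIL) : ST_INV := by
  intro G _ H B R _ _ _ ρ hS hnc
  obtain ⟨t, ht, htc⟩ := hnc
  have hft : Algebra.FiniteType ℂ R := hS.ft
  have hic : IsIntegrallyClosed R := hS.ic
  have hfg : (invt ρ).FG := hhil G H hS.hopf hS.red R ρ hS.rat
  have hinjK : Function.Injective (algebraMap R (FractionRing R)) :=
    IsFractionRing.injective R (FractionRing R)
  refine ⟨inferInstance, ?_, ?_, ?_, ?_⟩
  · rw [isIntegrallyClosed_iff (FractionRing (invt ρ))]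
    intro x hx
    obtain ⟨a, b, hb, rfl⟩ := IsFractionRing.div_surjective (A := invt ρ) x
    have hb0 : (b : invt ρ) ≠ 0 := nonZeroDivisors.ne_zero hb
    have hb0' : (b : R) ≠ 0 := fun h => hb0 (Subtype.ext h)
    have hjinj : Function.Injective (invt ρ).val.toRingHom := Subtype.val_injective
    let σ : FractionRing (invt ρ) →+* FractionRing R :=
      IsFractionRing.map (K := FractionRing (invt ρ)) (L := FractionRing R) hjinj
    have hσ : ∀ r : invt ρ, σ (algebraMap (invt ρ) (FractionRing (invt ρ)) r) =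
        algebraMap R (FractionRing R) (r : R) := fun r => IsLocalization.map_eq _ r
    have hint : IsIntegral R (σ (algebraMap (invt ρ) (FractionRing (invt ρ)) a /
        algebraMap (invt ρ) (FractionRing (invt ρ)) b)) := by
      obtain ⟨f, hf1, hf2⟩ := hx
      refine ⟨f.map (invt ρ).val.toRingHom, hf1.map _, ?_⟩
      rw [Polynomial.eval₂_map]
      have h1 := congrArg σ hf2
      rw [map_zero, Polynomial.hom_eval₂] at h1
      have h2 : σ.comp (algebraMap (invt ρ) (FractionRing (invt ρ))) =
          (algebraMap R (FractionRing R)).comp (invt ρ).val.toRingHom := RingHom.ext hσ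
      rw [h2] at h1
      exact h1
    obtain ⟨r, hr⟩ := IsIntegrallyClosed.isIntegral_iff.1 hint
    rw [map_div₀, hσ, hσ] at hr
    have hbK : algebraMap R (FractionRing R) (b : R) ≠ 0 := fun h =>
      hb0' ((map_eq_zero_iff _ hinjK).1 h)
    have hrb : r * b = (a : R) := by
      apply hinjK
      rw [map_mul, hr, div_mul_cancel₀ _ hbK]
    have hrinv : r ∈ invt ρ := by
      intro g
      have h1 := congrArg (ρ g) hrb
      rw [map_mul, b.2 g, a.2 g, ← hrb] at h1
      exact mul_right_cancel₀ hb0' h1
    refine ⟨⟨r, hrinv⟩, ?_⟩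
    have hbO : algebraMap (invt ρ) (FractionRing (invt ρ)) b ≠ 0 := fun h =>
      hb0 ((map_eq_zero_iff _ (IsFractionRing.injective (invt ρ) (FractionRing (invt ρ)))).1 h)
    rw [eq_div_iff hbO, ← map_mul]
    congr 1
    exact Subtype.ext hrb
  · exact (Subalgebra.fg_iff_finiteType _).1 hfg
  · refine ⟨⟨t, ht⟩, fun c hc => htc c ?_⟩
    exact congrArg Subtype.val hc
  · intro f g
    have h := hS.cx (f : R) 1 (g : R) 1 ⟨one_ne_zero, fun b => by
      rw [map_one, mul_one, mul_one]; exact f.2 b⟩ ⟨one_ne_zero, fun b => by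
      rw [map_one, mul_one, mul_one]; exact g.2 b⟩
    rw [map_one, div_one, div_one] at h
    obtain ⟨P, hP0, hP⟩ := h
    refine ⟨P, hP0, ?_⟩
    apply Subtype.val_injective
    apply hinjK
    rw [ZeroMemClass.coe_zero, map_zero, ← hP]
    let τ : invt ρ →ₐ[ℂ] FractionRing R :=
      (IsScalarTower.toAlgHom ℂ R (FractionRing R)).comp (invt ρ).val
    have h1 := MvPolynomial.comp_aeval_apply (f := ![f, g]) τ P
    have h2 : (fun i => τ ((![f, g] : Fin 2 → invt ρ) i)) =
        ![algebraMap R (FractionRing R) (f : R), algebraMap R (FractionRing R) (g : R)] := by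
      funext i
      fin_cases i
      · rfl
      · rfl
    rw [h2] at h1
    exact h1

end Pool.Agent.Helper43.RS
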