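import Pool.Agent.Helper43.RS.Spec

namespace Pool.Agent.Helper43.RS

open MvPolynomial

/-- nonconstant elements are transcendental -/
theorem kb_transc {R : Type} [CommRing R] [IsDomain R] [Algebra ℂ R] {t : R}
    (ht : ∀ c : ℂ, t ≠ algebraMap ℂ R c) : Transcendental ℂ t := by
  intro h
  have hi : IsIntegral ℂ t := h.isIntegral
  have h1 := IsAlgClosed.degree_eq_one_of_irreducible ℂ (minpoly.irreducible hi)
  obtain ⟨c, hc⟩ := minpoly.mem_range_of_degree_eq_one ℂ t h1
  exact ht c hc.symm

theorem kb_poly {R : Type} [CommRing R] [IsDomain R] [Algebra ℂ R] {t : R}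
    (ht : Transcendental ℂ t) {z : FractionRing R}
    (h : AlgDep z (algebraMap R (FractionRing R) t)) :
    ∃ Q : Polynomial R, Q ≠ 0 ∧ Polynomial.aeval z Q = 0 ∧
      ∀ i, ∃ f : MvPolynomial (Fin 1) ℂ, Q.coeff i = aeval ![t] f := by
  obtain ⟨P, hP0, hP⟩ := h
  have hinj : Function.Injective (aeval ![t] : MvPolynomial (Fin 1) ℂ →ₐ[ℂ] R) := by
    have : AlgebraicIndependent ℂ ![t] := by
      rw [algebraicIndependent_unique_type_iff]
      exact ht
    exact this
  let ev : MvPolynomial (Fin 1) ℂ →+* R := (aeval ![t] : MvPolynomial (Fin 1) ℂ →ₐ[ℂ] R).toRingHom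
  refine ⟨(finSuccEquiv ℂ 1 P).map ev, ?_, ?_, ?_⟩
  · intro h0
    have h1 : finSuccEquiv ℂ 1 P = 0 := by
      apply Polynomial.map_injective ev hinj
      rw [h0, Polynomial.map_zero]
    exact hP0 ((map_eq_zero_iff _ (finSuccEquiv ℂ 1).injective).1 h1)
  · rw [Polynomial.aeval_def, Polynomial.eval₂_map]
    have key : (Polynomial.eval₂RingHom ((algebraMap R (FractionRing R)).comp ev) z).comp
        ((finSuccEquiv ℂ 1 : MvPolynomial (Fin 2) ℂ →+* Polynomial (MvPolynomial (Fin 1) ℂ))) =
        (aeval ![z, algebraMap R (FractionRing R) t] :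
          MvPolynomial (Fin 2) ℂ →ₐ[ℂ] FractionRing R).toRingHom := by
      rw [finSuccEquiv_eq]
      apply MvPolynomial.ringHom_ext
      · intro c
        simp [ev]
        exact (IsScalarTower.algebraMap_apply ℂ R (FractionRing R) c).symm
      · intro i
        fin_cases i
        · simp [ev]
        · simp [ev]
          have : (Fin.cases Polynomial.X (fun k => Polynomial.C (X k)) (1 : Fin 2) :
            Polynomial (MvPolynomial (Fin 1) ℂ)) = Polynomial.C (X 0) := rfl
          rw [this]
          simp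
    have := congrArg (fun f : MvPolynomial (Fin 2) ℂ →+* FractionRing R => f P) key
    exact this.trans hP
  · intro i
    exact ⟨(finSuccEquiv ℂ 1 P).coeff i, by rw [Polynomial.coeff_map]; rfl⟩

theorem kb_prod {G : Type} [Nonempty G] {H : Subalgebra ℂ (G → ℂ)} (hI : IrrFun H) {ι : Type}
    (S : Finset ι) (f : ι → G → ℂ) (hf : ∀ i, f i ∈ H) (hf0 : ∀ i, f i ≠ 0) :
    ∏ i ∈ S, f i ∈ H ∧ ∏ i ∈ S, f i ≠ 0 := by
  classical
  induction S using Finset.induction_on with
  | empty => exact ⟨by rw [Finset.prod_empty]; exact one_mem H, by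
      rw [Finset.prod_empty]; exact one_ne_zero⟩
  | insert a s ha ih =>
    rw [Finset.prod_insert ha]
    refine ⟨mul_mem (hf a) ih.1, fun h => ?_⟩
    rcases hI _ (hf a) _ ih.1 h with h1 | h1
    · exact hf0 a h1
    · exact ih.2 h1

theorem st_KB : ST_KB := by
  intro G _ H hH hI B R _ _ _ _ _ ρ hrat hcx t ht htc p q hpq
  have hq : q ≠ 0 := hpq.1
  have hdep := hcx p q t 1 hpq ⟨one_ne_zero, fun b => by
    rw [map_one, mul_one, mul_one]; exact ht b⟩
  rw [map_one, div_one] at hdep
  obtain ⟨Q, hQ0, hQz, hQc⟩ := kb_poly (kb_transc htc) hdep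
  have hQinv : ∀ i, Q.coeff i ∈ invt ρ := by
    intro i g
    obtain ⟨f, hf⟩ := hQc i
    rw [hf]
    have h1 := MvPolynomial.comp_aeval_apply (f := ![t]) ((ρ g) : R →ₐ[ℂ] R) f
    have h2 : (fun i => ((ρ g) : R →ₐ[ℂ] R) ((![t] : Fin 1 → R) i)) = ![t] := by
      funext i
      fin_cases i
      exact ht g
    rw [h2] at h1
    exact h1
  have hinjK : Function.Injective (algebraMap R (FractionRing R)) :=
    IsFractionRing.injective R (FractionRing R)
  have hρq : ∀ g, ρ g q ≠ 0 := fun g h => hq ((map_eq_zero_iff _ (ρ g).injective).1 h)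
  have hρqK : ∀ g, algebraMap R (FractionRing R) (ρ g q) ≠ 0 := fun g h =>
    hρq g ((map_eq_zero_iff _ hinjK).1 h)
  let zg : G → FractionRing R := fun g =>
    algebraMap R (FractionRing R) (ρ g p) / algebraMap R (FractionRing R) (ρ g q)
  have hzg1 : zg 1 = algebraMap R (FractionRing R) p / algebraMap R (FractionRing R) q := by
    simp [zg]
  have hzg : ∀ g, Polynomial.aeval (zg g) Q = 0 := by
    intro g
    let j : R →+* R := ((ρ g : R ≃ₐ[ℂ] R) : R →+* R)
    have hj : Function.Injective j := (ρ g).injective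
    let σ : FractionRing R →+* FractionRing R := IsFractionRing.map (K := FractionRing R)
      (L := FractionRing R) hj
    have hσ : ∀ r : R, σ (algebraMap R (FractionRing R) r) =
        algebraMap R (FractionRing R) (ρ g r) := fun r => IsLocalization.map_eq _ r
    have hσz : σ (algebraMap R (FractionRing R) p / algebraMap R (FractionRing R) q) = zg g := by
      rw [map_div₀, hσ, hσ]
    have h1 := congrArg σ hQz
    rw [map_zero, Polynomial.aeval_def, Polynomial.hom_eval₂, hσz] at h1
    have h2 : σ.comp (algebraMap R (FractionRing R)) =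
        (algebraMap R (FractionRing R)).comp j := RingHom.ext hσ
    rw [h2, ← Polynomial.eval₂_map] at h1
    have h3 : Q.map j = Q := by
      ext i
      rw [Polynomial.coeff_map]
      exact hQinv i g
    rw [h3] at h1
    rw [Polynomial.aeval_def]
    exact h1
  have hQK : Q.map (algebraMap R (FractionRing R)) ≠ 0 :=
    (Polynomial.map_ne_zero_iff hinjK).2 hQ0
  classical
  let S : Finset (FractionRing R) := (Q.map (algebraMap R (FractionRing R))).roots.toFinset
  have hS : ∀ g, zg g ∈ S := by
    intro g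
    rw [Multiset.mem_toFinset, Polynomial.mem_roots hQK, Polynomial.IsRoot.def,
      Polynomial.eval_map, ← Polynomial.aeval_def]
    exact hzg g
  -- one value only
  have hone : ∃ y, ∀ g, zg g = y := by
    by_contra hcon
    push Not at hcon
    have hex : ∀ y : FractionRing R, ∃ f ∈ H, f ≠ 0 ∧ ∀ g, zg g = y → f g = 0 := by
      intro y
      by_cases hy : ∃ g', zg g' = y
      · obtain ⟨g', hg'⟩ := hy
        obtain ⟨g1, hg1⟩ := hcon y
        have hr : ρ g1 p * ρ g' q - ρ g' p * ρ g1 q ≠ 0 := by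
          intro h0
          apply hg1
          rw [← hg']
          show algebraMap R (FractionRing R) (ρ g1 p) / algebraMap R (FractionRing R) (ρ g1 q) =
            algebraMap R (FractionRing R) (ρ g' p) / algebraMap R (FractionRing R) (ρ g' q)
          rw [div_eq_div_iff (hρqK g1) (hρqK g'), ← map_mul, ← map_mul, sub_eq_zero.1 h0]
        obtain ⟨φ, hφ⟩ : ∃ φ : Module.Dual ℂ R, φ (ρ g1 p * ρ g' q - ρ g' p * ρ g1 q) ≠ 0 := by
          by_contra hno
          push Not at hno
          exact hr ((Module.forall_dual_apply_eq_zero_iff ℂ _).1 hno)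
        refine ⟨fun g => φ (ρ g p * ρ g' q) - φ (ρ g' p * ρ g q), ?_, ?_, ?_⟩
        · obtain ⟨W1, hW1, -, -, hW1'⟩ := hrat p
          obtain ⟨W2, hW2, -, -, hW2'⟩ := hrat q
          exact sub_mem (hW1' p hW1 (φ ∘ₗ LinearMap.mulRight ℂ (ρ g' q)))
            (hW2' q hW2 (φ ∘ₗ LinearMap.mulLeft ℂ (ρ g' p)))
        · intro h0
          have := congrFun h0 g1
          simp only [Pi.zero_apply] at this
          rw [← map_sub] at this
          exact hφ this
        · intro g hg
          have h1 : zg g = zg g' := hg.trans hg'.symm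
          have h2 : algebraMap R (FractionRing R) (ρ g p) /
              algebraMap R (FractionRing R) (ρ g q) =
            algebraMap R (FractionRing R) (ρ g' p) / algebraMap R (FractionRing R) (ρ g' q) := h1
          rw [div_eq_div_iff (hρqK g) (hρqK g'), ← map_mul, ← map_mul] at h2
          show φ (ρ g p * ρ g' q) - φ (ρ g' p * ρ g q) = 0
          rw [hinjK h2, sub_self]
      · exact ⟨1, one_mem H, one_ne_zero, fun g hg => absurd ⟨g, hg⟩ hy⟩
    choose f hf1 hf2 hf3 using hex
    obtain ⟨-, hprod⟩ := kb_prod hI S f hf1 hf2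
    apply hprod
    funext g
    rw [Finset.prod_apply]
    exact Finset.prod_eq_zero (hS g) (hf3 _ g rfl)
  obtain ⟨y, hy⟩ := hone
  have hinv : ∀ g, ρ g p * q = p * ρ g q := by
    intro g
    have h1 : zg g = algebraMap R (FractionRing R) p / algebraMap R (FractionRing R) q := by
      rw [hy g, ← hy 1, hzg1]
    have h2 : algebraMap R (FractionRing R) (ρ g p) / algebraMap R (FractionRing R) (ρ g q) =
      algebraMap R (FractionRing R) p / algebraMap R (FractionRing R) q := h1
    have hqK : algebraMap R (FractionRing R) q ≠ 0 := fun h => hq ((map_eq_zero_iff _ hinjK).1 h)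
    rw [div_eq_div_iff (hρqK g) hqK, ← map_mul, ← map_mul] at h2
    exact hinjK h2
  have hint := isIntegral_leadingCoeff_smul Q _ hQz
  obtain ⟨c', hc'⟩ := IsIntegrallyClosed.isIntegral_iff.1 hint
  have hqK : algebraMap R (FractionRing R) q ≠ 0 := fun h => hq ((map_eq_zero_iff _ hinjK).1 h)
  have heq : Q.leadingCoeff * p = c' * q := by
    apply hinjK
    rw [map_mul, map_mul, hc', Algebra.smul_def, mul_assoc, div_mul_cancel₀ _ hqK]
  have hcinv : Q.leadingCoeff ∈ invt ρ := hQinv _
  refine ⟨Q.leadingCoeff, hcinv, c', ?_, Polynomial.leadingCoeff_ne_zero.2 hQ0, heq⟩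
  intro g
  have h1 := congrArg (ρ g) heq
  rw [map_mul, map_mul, hcinv g] at h1
  have h2 : ρ g c' * (ρ g q * q) = c' * (ρ g q * q) := by
    calc ρ g c' * (ρ g q * q) = (ρ g c' * ρ g q) * q := by ring
      _ = (Q.leadingCoeff * ρ g p) * q := by rw [h1]
      _ = Q.leadingCoeff * (ρ g p * q) := by ring
      _ = Q.leadingCoeff * (p * ρ g q) := by rw [hinv g]
      _ = (Q.leadingCoeff * p) * ρ g q := by ring
      _ = (c' * q) * ρ g q := by rw [heq]
      _ = c' * (ρ g q * q) := by ring
  exact mul_right_cancel₀ (mul_ne_zero (hρq g) hq) h2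

end Pool.Agent.Helper43.RS
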